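import Pool.Agent.Helper37.LN3.Defs
import Pool.Agent.Helper97.LN.CLS

/-!
# Project LN3, block GL3: the degrees of the extensions with a section
-/

set_option autoImplicit false

namespace Pool.Agent.LN3

open VC IntermediateField NumberField IsDedekindDomain WithZero
open Pool.Agent.HG (Pr nm)
open Pool.Agent.L (OverV)
open Pool.Agent.LN (GoodCurve IsRam DecPt val_ne isRam_iff)
open Pool.Agent.LN2 (FixesD)

/-- the contribution of a prime above `v` to the degree -/
private theorem contr99 {k K0 : Type} [Field k] [NumberField k] [Field K0] [Algebra k K0] {n : ℕ}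
    {h : K0} (hn : 2 ≤ n) {σ : AlgebraicClosure k ≃ₐ[k] AlgebraicClosure k} {v : Pr k}
    (hLOC : ∀ (k' : Type) [Field k'] [NumberField k']
      [Algebra k k'] (v' : Pr k'), Over v v' → ∀ c : k', c ≠ 0 → IsRam n v' c →
      HasSecR k k' n h c →
      ∃ (_ : Algebra k' (AlgebraicClosure k)) (_ : IsScalarTower k k' (AlgebraicClosure k))
        (O : ValuationSubring (AlgebraicClosure k))
        (F : AlgebraicClosure k ≃ₐ[k'] AlgebraicClosure k) (p f : ℕ), DecPt v' O F p f ∧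
        FixesD h (fun d => d ∣ n ∧ IsRam d v' c) (F.restrictScalars k))
    (hDEN : ∀ O : ValuationSubring (AlgebraicClosure k), OverV v O → ∀ (f : ℕ)
        (F : AlgebraicClosure k ≃ₐ[k] AlgebraicClosure k), 0 < f → (∀ z, F z ∈ O ↔ z ∈ O) →
        (∀ z ∈ O, O.valuation (F z - z ^ nm v ^ f) < 1) →
        ∀ D : ℕ → Prop, D n → FixesD h D F → FixesD h D (σ ^ f))
    {c : k} (hc : c ≠ 0) (hcop : ∀ d : ℕ, d ∣ n → 1 < d → IsRam d v c)
    {k' : Type} [Field k'] [NumberField k'] [Algebra k k']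
    (hsec : HasSecR k k' n h (algebraMap k k' c)) (P : Ideal (𝓞 k')) (hP : P.IsPrime)
    (hPv : P.LiesOver v.asIdeal) :
    Ideal.ramificationIdx' v.asIdeal P * Ideal.inertiaDeg' v.asIdeal P ∈ Deg n h σ := by
  have hPb : P ≠ ⊥ := Ideal.ne_bot_of_liesOver_of_ne_bot v.ne_bot P
  let v' : Pr k' := ⟨P, hP, hPb⟩
  have hlo : v'.asIdeal.LiesOver v.asIdeal := hPv
  obtain ⟨e, he⟩ : ∃ e, e = Ideal.ramificationIdx' v.asIdeal P := ⟨_, rfl⟩
  obtain ⟨f, hf⟩ : ∃ f, f = Ideal.inertiaDeg' v.asIdeal P := ⟨_, rfl⟩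
  rw [← he, ← hf]
  have he0 : e ≠ 0 := by
    rw [he]
    exact Ideal.IsDedekindDomain.ramificationIdx'_ne_zero_of_liesOver v'.asIdeal v.ne_bot
  have hval : ∀ x : k, v.valuation k x ^ e = v'.valuation k' (algebraMap k k' x) := by
    intro x
    rw [he]
    exact HeightOneSpectrum.valuation_liesOver k' v v' x
  have hnm : nm v' = nm v ^ f := by
    rw [hf]
    exact Ideal.absNorm_eq_pow_inertiaDeg'_of_liesOver P v.asIdeal v.isPrime v.ne_bot
  have hf0 : 0 < f := by
    rcases Nat.eq_zero_or_pos f with h0 | h0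
    · rw [h0, pow_zero] at hnm
      exact absurd (Ideal.absNorm_eq_one_iff.1 hnm) hP.ne_top
    · exact h0
  have hover : Over v v' := by
    intro x
    rw [← hval]
    exact pow_le_one_iff_of_nonneg zero_le he0
  -- the orders of `c`
  have hc' : algebraMap k k' c ≠ 0 := (_root_.map_ne_zero _).2 hc
  set a : ℤ := log (v.valuation k c) with ha
  have hlog : log (v'.valuation k' (algebraMap k k' c)) = e * a := by
    rw [← hval, log_pow, nsmul_eq_mul]
  have hn0 : 0 < n := by omega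
  have hgcd : IsCoprime (n : ℤ) a := by
    rw [Int.isCoprime_iff_gcd_eq_one]
    by_contra hg
    have h1 : Int.gcd (n : ℤ) a ∣ n := by
      have h2 := Int.gcd_dvd_left (n : ℤ) a
      exact_mod_cast h2
    have h2 : 1 < Int.gcd (n : ℤ) a := by
      have h3 : Int.gcd (n : ℤ) a ≠ 0 := by
        intro h0
        rw [h0] at h1
        have := Nat.eq_zero_of_zero_dvd h1
        omega
      omega
    have h3 := hcop _ h1 h2
    rw [isRam_iff (by omega) v hc] at h3
    exact h3 (Int.gcd_dvd_right _ _)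
  have hram : ∀ d : ℕ, d ∣ n → ¬ d ∣ e → IsRam d v' (algebraMap k k' c) := by
    intro d hd hde
    have hd0 : 0 < d := Nat.pos_of_dvd_of_pos hd hn0
    rw [isRam_iff hd0 v' hc', hlog]
    intro h1
    have h2 : IsCoprime (d : ℤ) a :=
      IsCoprime.of_isCoprime_of_dvd_left hgcd (by exact_mod_cast hd)
    have h3 := h2.dvd_of_dvd_mul_right h1
    exact hde (by exact_mod_cast h3)
  by_cases hne : n ∣ e
  · obtain ⟨q, hq⟩ := hne
    have h1 : n ∈ Deg n h σ := AddSubmonoid.subset_closure (Or.inl rfl)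
    have h2 : e * f = (q * f) • n := by
      rw [hq, smul_eq_mul]
      ring
    rw [h2]
    exact AddSubmonoid.nsmul_mem _ h1 _
  · obtain ⟨i1, i2, O, F, p, f', hD, hfix⟩ := hLOC k' v' hover _ hc' (hram n dvd_rfl hne) hsec
    refine AddSubmonoid.subset_closure (Or.inr ⟨e, f, Nat.pos_of_ne_zero he0, hf0, rfl, ?_⟩)
    have hOv : OverV v O := by
      intro x
      rw [IsScalarTower.algebraMap_apply k k' (AlgebraicClosure k), hD.above, hover]
    obtain ⟨P1, φ1, h1, h2, h3, h4⟩ := hDEN O hOv f (F.restrictScalars k) hf0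
      (fun z => hD.frob.stable z) (fun z hz => by
        have h1 := hD.frob.frob z hz
        rw [← hnm, hD.norm]
        exact h1) _ ⟨dvd_rfl, hram n dvd_rfl hne⟩ hfix
    exact ⟨P1, φ1, h1, fun d hd z => h2 d ⟨hd.1, hram d hd.1 hd.2⟩ z, h3, h4⟩

/-- BLOCK GL3 -/
theorem gl (hLOC : StmtLOC) (hDEN : StmtDEN) : StmtGL := by
  intro k K0 _ _ _ _ n h hn hG σ B hB
  classical
  obtain ⟨Bad, hBad, hLOC⟩ := hLOC k K0 n h hn hG
  obtain ⟨δ, C, Q, hδ, hQ, hsum⟩ := hDEN k K0 n h hn hG σ B hB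
  refine ⟨δ, C + ∑ v ∈ hBad.toFinset, (1 : ℝ) / nm v, Q \ Bad, hδ, ?_, ?_⟩
  · rintro v ⟨hvQ, hvB⟩ c hc ⟨k', i1, i2, i3, hsec, hdeg⟩
    by_contra hcon
    have hcop : ∀ d : ℕ, d ∣ n → 1 < d → IsRam d v c := by
      intro d hd hd1
      by_contra h1
      exact hcon ⟨d, hd, hd1, h1⟩
    have hnf : NumberField k' := NumberField.of_module_finite k k'
    apply hdeg
    have hmax : v.asIdeal.IsMaximal := v.isMaximal
    have key := Ideal.sum_ramification_inertia (S := 𝓞 k') k k' (p := v.asIdeal) v.ne_bot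
    rw [← key]
    refine sum_mem fun P hP => ?_
    obtain ⟨hP1, hP2⟩ := (IsDedekindDomain.mem_primesOverFinset_iff v.ne_bot _).1 hP
    exact contr99 hn (hLOC v hvB) (hQ v hvQ) hc hcop hsec P hP1 hP2
  · intro x hx
    have h1 : |∑ v ∈ (B x).filter (· ∈ Q), (1 : ℝ) / nm v - δ * Real.log (Real.log x)| ≤ C := by
      convert hsum x hx
    have h2 : ∑ v ∈ (B x).filter (· ∈ Q), (1 : ℝ) / nm v =
        ∑ v ∈ (B x).filter (· ∈ Q \ Bad), (1 : ℝ) / nm v +
        ∑ v ∈ ((B x).filter (· ∈ Q)).filter (· ∈ Bad), (1 : ℝ) / nm v := by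
      rw [← Finset.sum_filter_add_sum_filter_not ((B x).filter (· ∈ Q)) (· ∉ Bad)]
      congr 1
      · rw [Finset.filter_filter]
        rfl
      · refine Finset.sum_congr ?_ fun _ _ => rfl
        refine Finset.filter_congr fun v _ => ?_
        rw [not_not]
    have h3 : 0 ≤ ∑ v ∈ ((B x).filter (· ∈ Q)).filter (· ∈ Bad), (1 : ℝ) / nm v :=
      Finset.sum_nonneg fun v _ => by positivity
    have h4 : ∑ v ∈ ((B x).filter (· ∈ Q)).filter (· ∈ Bad), (1 : ℝ) / nm v ≤
        ∑ v ∈ hBad.toFinset, (1 : ℝ) / nm v := by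
      refine Finset.sum_le_sum_of_subset_of_nonneg ?_ fun v _ _ => by positivity
      intro v hv
      rw [Finset.mem_filter] at hv
      exact hBad.mem_toFinset.2 hv.2
    have h5 : |∑ v ∈ (B x).filter (· ∈ Q \ Bad), (1 : ℝ) / nm v -
        δ * Real.log (Real.log x)| ≤ C + ∑ v ∈ hBad.toFinset, (1 : ℝ) / nm v := by
      rw [abs_le] at h1 ⊢
      constructor <;> linarith [h1.1, h1.2]
    convert h5

end Pool.Agent.LN3
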